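import Pool.Agent.H27.HP.T
import Pool.Agent.H17.HB.LNA

/-!
# LNC: the linear part, first half, for `p ≥ 2`
-/

set_option autoImplicit false

namespace Pool.Agent.H17.HP
open MeasureTheory Set Filter Topology Pool.Agent.H80.HS Pool.Agent.H93.HQ Pool.Agent.H27.HB
open Pool.Agent.H27.HP Pool.Agent.H17.HB Pool.Agent.H17.HB.LNAaux
open scoped ContDiff ENNReal

/-- the pointwise bound -/
theorem pw2 {M g x : ℝ} (hM : 1 ≤ M) (hg : 0 < g) (hgM : g ≤ M) (hx0 : 0 ≤ x) (hx : x ≤ 1 / 8) :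
    |g ^ x - 1| * g ≤ 32 * M * x * g ^ (7 / 8 : ℝ) := by
  have e1 : g ^ x = Real.exp (x * Real.log g) := by
    rw [Real.rpow_def_of_pos hg, mul_comm]
  have h1 : |g ^ x - 1| ≤ x * |Real.log g| * (1 + g ^ x) := by
    have h := exp_sub_one (x * Real.log g)
    rw [← e1, abs_mul, abs_of_nonneg hx0] at h
    exact h
  have h2 := log_bd hg
  have hb : ∀ e : ℝ, 7 / 8 ≤ e → e ≤ 15 / 8 → g ^ e ≤ M * g ^ (7 / 8 : ℝ) := by
    intro e he he'
    have e2 : g ^ e = g ^ (e - 7 / 8) * g ^ (7 / 8 : ℝ) := by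
      rw [← Real.rpow_add hg]
      ring_nf
    rw [e2]
    apply mul_le_mul_of_nonneg_right _ (Real.rpow_nonneg hg.le _)
    calc g ^ (e - 7 / 8) ≤ M ^ (e - 7 / 8) := Real.rpow_le_rpow hg.le hgM (by linarith)
      _ ≤ M ^ (1 : ℝ) := Real.rpow_le_rpow_of_exponent_le hM (by linarith)
      _ = M := Real.rpow_one M
  have p1 := Real.rpow_pos_of_pos hg x
  calc |g ^ x - 1| * g ≤ (x * |Real.log g| * (1 + g ^ x)) * g :=
        mul_le_mul_of_nonneg_right h1 hg.le
    _ ≤ (x * (8 * (g ^ (1 / 8 : ℝ) + g ^ (-1 / 8 : ℝ))) * (1 + g ^ x)) * g := by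
        gcongr
    _ = 8 * x * (g ^ (1 / 8 : ℝ) * g ^ (1 : ℝ) + g ^ (-1 / 8 : ℝ) * g ^ (1 : ℝ) +
          g ^ (1 / 8 : ℝ) * g ^ x * g ^ (1 : ℝ) +
          g ^ (-1 / 8 : ℝ) * g ^ x * g ^ (1 : ℝ)) := by
        rw [Real.rpow_one]
        ring
    _ = 8 * x * (g ^ (9 / 8 : ℝ) + g ^ (7 / 8 : ℝ) + g ^ (9 / 8 + x) + g ^ (7 / 8 + x)) := by
        rw [← Real.rpow_add hg, ← Real.rpow_add hg, ← Real.rpow_add hg, ← Real.rpow_add hg,
          ← Real.rpow_add hg, ← Real.rpow_add hg]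
        ring_nf
    _ ≤ 8 * x * (M * g ^ (7 / 8 : ℝ) + M * g ^ (7 / 8 : ℝ) + M * g ^ (7 / 8 : ℝ) +
          M * g ^ (7 / 8 : ℝ)) := by
        apply mul_le_mul_of_nonneg_left _ (by positivity)
        have a1 := hb (9 / 8) (by norm_num) (by norm_num)
        have a2 := hb (7 / 8) (by norm_num) (by norm_num)
        have a3 := hb (9 / 8 + x) (by linarith) (by linarith)
        have a4 := hb (7 / 8 + x) (by linarith) (by linarith)
        linarith
    _ = 32 * M * x * g ^ (7 / 8 : ℝ) := by ring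

theorem pf_LNC (hGRU : T_GRU) (hJJI : T_JJI) : T_LNC := by
  intro n hn
  have hn' : (1 : ℝ) ≤ n := by exact_mod_cast hn
  obtain ⟨g, hgdef⟩ : ∃ g : H n → ℝ, g = fun z => ‖hg (u0 n) z‖ := ⟨_, rfl⟩
  have hform : ∀ z, g z = 2 * n * mz z * ww z ^ (-((n : ℝ) + 1) / 2) := by
    intro z
    rw [hgdef]
    exact (hGRU n z).2
  have hg0 : ∀ z, 0 ≤ g z := by
    intro z
    rw [hgdef]
    exact norm_nonneg _
  set M : ℝ := 2 * n with hMdef
  have hM1 : 1 ≤ M := by rw [hMdef]; linarith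
  have hgM : ∀ z, g z ≤ M := by
    intro z
    have hw := one_le_ww z
    have h1 : ww z ^ (-((n : ℝ) + 1) / 2) ≤ ww z ^ (-1 : ℝ) :=
      Real.rpow_le_rpow_of_exponent_le hw (by linarith)
    have h2 : mz z * ww z ^ (-((n : ℝ) + 1) / 2) ≤ 1 := by
      calc mz z * ww z ^ (-((n : ℝ) + 1) / 2) ≤ ww z * ww z ^ (-1 : ℝ) :=
            mul_le_mul (mz_le z) h1 (Real.rpow_nonneg (by linarith) _) (by linarith)
        _ = 1 := by
            rw [Real.rpow_neg_one]
            exact mul_inv_cancel₀ (by linarith)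
    rw [hform, mul_assoc]
    calc M * (mz z * ww z ^ (-((n : ℝ) + 1) / 2)) ≤ M * 1 :=
          mul_le_mul_of_nonneg_left h2 (by linarith)
      _ = M := mul_one M
  have hgc : Continuous g := by
    have e : g = fun z => 2 * n * mz z * ww z ^ (-((n : ℝ) + 1) / 2) := funext hform
    rw [e]
    exact (continuous_const.mul mz_cont).mul
      (ww_cont.rpow_const fun z => Or.inl (by linarith [one_le_ww z]))
  -- integrability of `g ^ (3/2)`
  have hI : Integrable (fun z => g z ^ (3 / 2 : ℝ)) := by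
    have h := (hJJI n (3 / 2) (3 * (n + 1) / 4) hn (by norm_num) (by linarith)).1
    have e : (fun z : H n => g z ^ (3 / 2 : ℝ)) =
        fun z => M ^ (3 / 2 : ℝ) * (mz z ^ (3 / 2 : ℝ) * ww z ^ (-(3 * ((n : ℝ) + 1) / 4))) := by
      funext z
      have hw := one_le_ww z
      have hm : 0 ≤ mz z := Real.sqrt_nonneg _
      rw [hform, Real.mul_rpow (by positivity) (Real.rpow_nonneg (by linarith) _),
        Real.mul_rpow (by positivity) hm, ← Real.rpow_mul (by linarith), mul_assoc]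
      congr 3
      ring
    rw [e]
    exact h.const_mul _
  set I : ℝ := ∫ z, g z ^ (3 / 2 : ℝ) with hIdef
  have hI0 : 0 ≤ I := integral_nonneg fun z => Real.rpow_nonneg (hg0 z) _
  refine ⟨32 * M * (1 + M * I), by positivity, ?_⟩
  intro p hp1 hp2 h hh
  obtain ⟨p', hp'⟩ : ∃ p' : ℝ, p' = p / (p - 1) := ⟨_, rfl⟩
  have hpm : 0 < p - 1 := by linarith
  have hp'2 : 17 / 9 ≤ p' := by
    rw [hp', le_div_iff₀ hpm]
    linarith
  have hp'3 : p' ≤ 2 := by
    rw [hp', div_le_iff₀ hpm]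
    linarith
  have hconj : p'.HolderConjugate p := by
    rw [Real.holderConjugate_comm, hp']
    exact Real.HolderConjugate.conjExponent (by linarith)
  have hcmp : ∀ z, (g z ^ (7 / 8 : ℝ)) ^ p' ≤ M * g z ^ (3 / 2 : ℝ) := by
    intro z
    rw [← Real.rpow_mul (hg0 z)]
    exact rpow_cmp hM1 (hg0 z) (hgM z) (by linarith) (by linarith)
  have hFc : Continuous (fun z => g z ^ (7 / 8 : ℝ)) :=
    hgc.rpow_const fun z => Or.inr (by norm_num)
  have hF0 : ∀ z, 0 ≤ g z ^ (7 / 8 : ℝ) := fun z => Real.rpow_nonneg (hg0 z) _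
  have hFi : Integrable (fun z => (g z ^ (7 / 8 : ℝ)) ^ p') := by
    refine (hI.const_mul M).mono' ?_ (Eventually.of_forall fun z => ?_)
    · exact (hFc.rpow_const fun z => Or.inr (by linarith)).aestronglyMeasurable
    · rw [Real.norm_of_nonneg (Real.rpow_nonneg (hF0 z) _)]
      exact hcmp z
  have hF : MemLp (fun z => g z ^ (7 / 8 : ℝ)) (ENNReal.ofReal p') := by
    rw [← integrable_norm_rpow_iff hFc.aestronglyMeasurable
      (ENNReal.ofReal_ne_zero_iff.2 (by linarith)) ENNReal.ofReal_ne_top,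
      ENNReal.toReal_ofReal (by linarith)]
    refine hFi.congr (Eventually.of_forall fun z => ?_)
    simp only
    rw [Real.norm_of_nonneg (hF0 z)]
  have hFint : (∫ z, (g z ^ (7 / 8 : ℝ)) ^ p') ^ (1 / p') ≤ 1 + M * I := by
    have h1 : ∫ z, (g z ^ (7 / 8 : ℝ)) ^ p' ≤ M * I := by
      rw [hIdef, ← integral_const_mul]
      exact integral_mono hFi (hI.const_mul M) hcmp
    have hMI : 0 ≤ M * I := by positivity
    calc (∫ z, (g z ^ (7 / 8 : ℝ)) ^ p') ^ (1 / p') ≤ (1 + M * I) ^ (1 / p') :=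
          Real.rpow_le_rpow (integral_nonneg fun z => Real.rpow_nonneg (hF0 z) _) (by linarith)
            (by positivity)
      _ ≤ (1 + M * I) ^ (1 : ℝ) := by
          apply Real.rpow_le_rpow_of_exponent_le (by linarith)
          rw [div_le_one (by linarith)]
          linarith
      _ = 1 + M * I := Real.rpow_one _
  have hhold := integral_mul_le_Lp_mul_Lq_of_nonneg hconj (Eventually.of_forall hF0)
    (Eventually.of_forall fun z => norm_nonneg (h z)) hF hh.norm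
  have hinst := hconj.ennrealOfReal
  have hint : Integrable (fun z => g z ^ (7 / 8 : ℝ) * ‖h z‖) := hF.integrable_mul hh.norm
  have hx0 : 0 ≤ p - 2 := by linarith
  have hpt : ∀ z, ‖(‖hg (u0 n) z‖ ^ (p - 2) - 1) * inner ℝ (hg (u0 n) z) (h z)‖ ≤
      32 * M * (p - 2) * (g z ^ (7 / 8 : ℝ) * ‖h z‖) := by
    intro z
    have hgz : ‖hg (u0 n) z‖ = g z := by rw [hgdef]
    rcases (hg0 z).eq_or_lt with h0 | h0
    · have h1 : hg (u0 n) z = 0 := by rw [← norm_eq_zero, hgz, ← h0]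
      rw [h1, inner_zero_left, mul_zero, norm_zero]
      have := hF0 z
      positivity
    · have h1 := pw2 hM1 h0 (hgM z) hx0 (by linarith : p - 2 ≤ 1 / 8)
      have h2 : |inner ℝ (hg (u0 n) z) (h z)| ≤ g z * ‖h z‖ := by
        rw [← hgz]
        exact abs_real_inner_le_norm _ _
      rw [hgz, norm_mul, Real.norm_eq_abs, Real.norm_eq_abs]
      calc |g z ^ (p - 2) - 1| * |inner ℝ (hg (u0 n) z) (h z)|
          ≤ |g z ^ (p - 2) - 1| * (g z * ‖h z‖) := mul_le_mul_of_nonneg_left h2 (abs_nonneg _)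
        _ = (|g z ^ (p - 2) - 1| * g z) * ‖h z‖ := by ring
        _ ≤ (32 * M * (p - 2) * g z ^ (7 / 8 : ℝ)) * ‖h z‖ :=
            mul_le_mul_of_nonneg_right h1 (norm_nonneg _)
        _ = _ := by ring
  have hmain := norm_integral_le_of_norm_le (hint.const_mul (32 * M * (p - 2)))
    (Eventually.of_forall hpt)
  rw [Real.norm_eq_abs, integral_const_mul] at hmain
  refine hmain.trans ?_
  have hen : 0 ≤ (∫ z, ‖h z‖ ^ p) ^ (1 / p) :=
    Real.rpow_nonneg (integral_nonneg fun z => Real.rpow_nonneg (norm_nonneg _) _) _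
  have hfin : ∫ z, g z ^ (7 / 8 : ℝ) * ‖h z‖ ≤ (1 + M * I) * en p h ^ (1 / p) :=
    hhold.trans (mul_le_mul_of_nonneg_right hFint hen)
  calc 32 * M * (p - 2) * ∫ z, g z ^ (7 / 8 : ℝ) * ‖h z‖
      ≤ 32 * M * (p - 2) * ((1 + M * I) * en p h ^ (1 / p)) :=
        mul_le_mul_of_nonneg_left hfin (by positivity)
    _ = _ := by ring

end Pool.Agent.H17.HP
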